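import Mathlib

/-!
# Bipartitions minimizing the sum of squared degrees: definitions
-/

namespace Pool.Agent.Helper39.Mu

/-- `μ(H) = ∑_v d_H(v)^2` for a finite graph `H`. -/
noncomputable def mu {V : Type*} (H : SimpleGraph V) : ℕ :=
  ∑ᶠ v : V, (H.neighborSet v).ncard ^ 2

/-- `f_μ(G)`: the minimum of `μ(G[U]) + μ(G[V ∖ U])` over all bipartitions `(U, V ∖ U)`. -/
noncomputable def fMu {V : Type*} (G : SimpleGraph V) : ℕ :=
  sInf {x | ∃ U : Set V, x = mu (G.induce U) + mu (G.induce Uᶜ)}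

/-- `g_μ(G)`: the minimum of `max {μ(G[U]), μ(G[V ∖ U])}` over all bipartitions. -/
noncomputable def gMu {V : Type*} (G : SimpleGraph V) : ℕ :=
  sInf {x | ∃ U : Set V, x = max (mu (G.induce U)) (mu (G.induce Uᶜ))}

/-- `f_μ(m)`: the maximum of `f_μ(G)` over all finite graphs `G` with `m` edges. -/
noncomputable def fMuMax (m : ℕ) : ℕ :=
  sSup {x | ∃ (n : ℕ) (G : SimpleGraph (Fin n)), G.edgeSet.ncard = m ∧ fMu G = x}

/-- `g_μ(m)`: the maximum of `g_μ(G)` over all finite graphs `G` with `m` edges. -/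
noncomputable def gMuMax (m : ℕ) : ℕ :=
  sSup {x | ∃ (n : ℕ) (G : SimpleGraph (Fin n)), G.edgeSet.ncard = m ∧ gMu G = x}

end Pool.Agent.Helper39.Mu
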