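import Mathlib
import Pool.Agent.Helper39.Mu.Defs

/-!
# Bipartitions minimizing the sum of squared degrees: the multi-affine relaxation
-/

namespace Pool.Agent.Helper39.Mu

open Finset

set_option linter.unusedSectionVars false

section Relax

open Classical in
/-- The adjacency indicator. -/
noncomputable def adj {V : Type*} (G : SimpleGraph V) (v w : V) : ℝ := if G.Adj v w then 1 else 0

variable {V : Type*} [Fintype V] (G : SimpleGraph V)

/-- The degree as a real number. -/
noncomputable def deg (v : V) : ℝ := ∑ w, adj G v w

/-- The expected number of neighbours in the first part. -/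
noncomputable def avg (q : V → ℝ) (v : V) : ℝ := ∑ w, adj G v w * q w

/-- The variance of the number of neighbours in the first part. -/
noncomputable def vr (q : V → ℝ) (v : V) : ℝ := ∑ w, adj G v w * (q w * (1 - q w))

/-- The expected cost of the first part. -/
noncomputable def FX (q : V → ℝ) : ℝ := ∑ v, q v * (avg G q v ^ 2 + vr G q v)

/-- The expected cost of the second part. -/
noncomputable def FY (q : V → ℝ) : ℝ :=
  ∑ v, (1 - q v) * ((deg G v - avg G q v) ^ 2 + vr G q v)

lemma adj_self (v : V) : adj G v v = 0 := by simp [adj]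

lemma adj_comm (v w : V) : adj G v w = adj G w v := by
  unfold adj
  by_cases h : G.Adj v w
  · rw [if_pos h, if_pos h.symm]
  · rw [if_neg h, if_neg (fun h' => h h'.symm)]

lemma adj_zero_or_one (v w : V) : adj G v w = 0 ∨ adj G v w = 1 := by
  unfold adj; split_ifs <;> simp

lemma adj_nonneg (v w : V) : 0 ≤ adj G v w := by
  rcases adj_zero_or_one G v w with h | h <;> rw [h]; norm_num

lemma adj_sq (v w : V) : adj G v w ^ 2 = adj G v w := by
  rcases adj_zero_or_one G v w with h | h <;> rw [h] <;> norm_num

lemma adj_of_adj {v w : V} (h : G.Adj v w) : adj G v w = 1 := by simp [adj, h]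

variable [DecidableEq V]

lemma avg_update (q : V → ℝ) (u v : V) (t : ℝ) :
    avg G (Function.update q u t) v = avg G (Function.update q u 0) v + adj G v u * t := by
  unfold avg
  have : ∀ w, adj G v w * Function.update q u t w =
      adj G v w * Function.update q u 0 w + (if w = u then adj G v u * t else 0) := by
    intro w
    by_cases h : w = u
    · subst h; simp
    · simp [h]
  rw [Finset.sum_congr rfl (fun w _ => this w), Finset.sum_add_distrib, Finset.sum_ite_eq']
  simp

lemma vr_update (q : V → ℝ) (u v : V) (t : ℝ) :
    vr G (Function.update q u t) v =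
      vr G (Function.update q u 0) v + adj G v u * (t * (1 - t)) := by
  unfold vr
  have : ∀ w, adj G v w * (Function.update q u t w * (1 - Function.update q u t w)) =
      adj G v w * (Function.update q u 0 w * (1 - Function.update q u 0 w)) +
        (if w = u then adj G v u * (t * (1 - t)) else 0) := by
    intro w
    by_cases h : w = u
    · subst h; simp
    · simp [h]
  rw [Finset.sum_congr rfl (fun w _ => this w), Finset.sum_add_distrib, Finset.sum_ite_eq']
  simp

lemma FX_update (q : V → ℝ) (u : V) (t : ℝ) :
    FX G (Function.update q u t) =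
      (1 - t) * FX G (Function.update q u 0) + t * FX G (Function.update q u 1) := by
  unfold FX
  rw [Finset.mul_sum, Finset.mul_sum, ← Finset.sum_add_distrib]
  refine Finset.sum_congr rfl fun v _ => ?_
  rw [avg_update G q u v t, vr_update G q u v t, avg_update G q u v 1, vr_update G q u v 1]
  by_cases h : v = u
  · subst h
    simp only [adj_self, Function.update_self]
    ring
  · simp only [Function.update_of_ne h]
    rcases adj_zero_or_one G v u with h1 | h1 <;> rw [h1] <;> ring

lemma FY_update (q : V → ℝ) (u : V) (t : ℝ) :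
    FY G (Function.update q u t) =
      (1 - t) * FY G (Function.update q u 0) + t * FY G (Function.update q u 1) := by
  unfold FY
  rw [Finset.mul_sum, Finset.mul_sum, ← Finset.sum_add_distrib]
  refine Finset.sum_congr rfl fun v _ => ?_
  rw [avg_update G q u v t, vr_update G q u v t, avg_update G q u v 1, vr_update G q u v 1]
  by_cases h : v = u
  · subst h
    simp only [adj_self, Function.update_self]
    ring
  · simp only [Function.update_of_ne h]
    rcases adj_zero_or_one G v u with h1 | h1 <;> rw [h1] <;> ring

/-- Derandomization: a function which is affine in each coordinate attains at some `0/1`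
point a value at most its value at any given point of the cube. -/
lemma rounding (F : (V → ℝ) → ℝ)
    (hF : ∀ q u t, F (Function.update q u t) =
      (1 - t) * F (Function.update q u 0) + t * F (Function.update q u 1))
    (q : V → ℝ) (hq : ∀ v, 0 ≤ q v ∧ q v ≤ 1) :
    ∃ x : V → ℝ, (∀ v, x v = 0 ∨ x v = 1) ∧ F x ≤ F q := by
  have key : ∀ s : Finset V, ∃ x : V → ℝ, (∀ v, 0 ≤ x v ∧ x v ≤ 1) ∧
      (∀ v ∈ s, x v = 0 ∨ x v = 1) ∧ F x ≤ F q := by
    intro s
    induction s using Finset.induction_on with
    | empty => exact ⟨q, hq, by simp, le_rfl⟩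
    | insert u s hu ih =>
      obtain ⟨x, hx, hxs, hxF⟩ := ih
      have h1 := hF x u (x u)
      rw [Function.update_eq_self] at h1
      have h2 : ∃ t : ℝ, (t = 0 ∨ t = 1) ∧ F (Function.update x u t) ≤ F x := by
        by_contra hcon
        push Not at hcon
        have h3 := hcon 0 (Or.inl rfl)
        have h4 := hcon 1 (Or.inr rfl)
        rcases (hx u).1.eq_or_lt with h0 | h0
        · rw [← h0] at h1
          linarith
        · have h5 : 0 < x u * (F (Function.update x u 1) - F x) :=
            mul_pos h0 (by linarith)
          have h6 : 0 ≤ (1 - x u) * (F (Function.update x u 0) - F x) :=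
            mul_nonneg (by linarith [(hx u).2]) (by linarith)
          nlinarith
      obtain ⟨t, ht, hle⟩ := h2
      refine ⟨Function.update x u t, ?_, ?_, hle.trans hxF⟩
      · intro v
        by_cases h : v = u
        · subst h
          rw [Function.update_self]
          rcases ht with rfl | rfl <;> norm_num
        · rw [Function.update_of_ne h]; exact hx v
      · intro v hv
        by_cases h : v = u
        · subst h
          rw [Function.update_self]
          exact ht
        · rw [Function.update_of_ne h]
          exact hxs v ((Finset.mem_insert.mp hv).resolve_left h)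
  obtain ⟨x, _, hx, hle⟩ := key Finset.univ
  exact ⟨x, fun v => hx v (Finset.mem_univ v), hle⟩

lemma vr_zero_one {x : V → ℝ} (hx : ∀ v, x v = 0 ∨ x v = 1) (v : V) : vr G x v = 0 := by
  unfold vr
  refine Finset.sum_eq_zero fun w _ => ?_
  rcases hx w with h | h <;> rw [h] <;> ring

/-- The value of `μ` on an induced subgraph in terms of indicators. -/
lemma mu_induce {x : V → ℝ} {U : Set V} (hxU : ∀ v, (v ∈ U ∧ x v = 1) ∨ (v ∉ U ∧ x v = 0)) :
    (mu (G.induce U) : ℝ) = ∑ v, x v * avg G x v ^ 2 := by
  classical
  have hdeg : ∀ v : U, (((G.induce U).neighborSet v).ncard : ℝ) = avg G x v := by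
    intro v
    have h1 : ((G.induce U).neighborSet v).ncard =
        {w : V | w ∈ U ∧ G.Adj v w}.ncard := by
      rw [← Set.ncard_image_of_injective _ (Subtype.val_injective)]
      congr 1
      ext w
      simp only [Set.mem_image, SimpleGraph.mem_neighborSet, SimpleGraph.comap_adj,
        Function.Embedding.subtype_apply, Subtype.exists, exists_and_right, exists_eq_right,
        Set.mem_ofPred_eq]
      constructor
      · rintro ⟨hw, h⟩; exact ⟨hw, h⟩
      · rintro ⟨hw, h⟩; exact ⟨hw, h⟩
    rw [h1, Set.ncard_eq_toFinset_card']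
    unfold avg
    rw [Finset.card_eq_sum_ones, Nat.cast_sum]
    rw [Set.toFinset_ofPred, Finset.sum_filter]
    refine Finset.sum_congr rfl fun w _ => ?_
    rcases hxU w with ⟨hw, hx⟩ | ⟨hw, hx⟩
    · by_cases hadj : G.Adj v w <;> simp [hw, hx, adj, hadj]
    · simp [hw, hx]
  unfold mu
  rw [finsum_eq_sum_of_fintype, Nat.cast_sum]
  have h2 : ∀ v : U, (((((G.induce U).neighborSet v).ncard ^ 2 : ℕ)) : ℝ) =
      (fun v : V => x v * avg G x v ^ 2) v := by
    intro v
    push_cast
    rw [hdeg v]
    rcases hxU v with ⟨_, hx⟩ | ⟨hv, _⟩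
    · simp [hx]
    · exact absurd v.2 hv
  rw [Finset.sum_congr rfl (fun v _ => h2 v)]
  have h3 := Finset.sum_coe_sort U.toFinset (fun v : V => x v * avg G x v ^ 2)
  have h4 : ∑ v : U, (fun v : V => x v * avg G x v ^ 2) v =
      ∑ v ∈ U.toFinset, x v * avg G x v ^ 2 := by
    rw [← h3]
    refine Fintype.sum_equiv (Equiv.subtypeEquivRight (fun v => by simp)) _ _ (fun v => rfl)
  rw [h4]
  refine Finset.sum_subset (Finset.subset_univ _) fun v _ hv => ?_
  rcases hxU v with ⟨h, _⟩ | ⟨_, hx⟩
  · exact absurd (by simpa using h) hv
  · simp [hx]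

lemma cost_first {x : V → ℝ} (hx : ∀ v, x v = 0 ∨ x v = 1) :
    (mu (G.induce {v | x v = 1}) : ℝ) = FX G x := by
  rw [mu_induce G (x := x)]
  · unfold FX
    refine Finset.sum_congr rfl fun v _ => ?_
    rw [vr_zero_one G hx v, add_zero]
  · intro v
    rcases hx v with h | h
    · right; simp [h]
    · left; simp [h]

lemma avg_one_sub (x : V → ℝ) (v : V) : avg G (fun w => 1 - x w) v = deg G v - avg G x v := by
  unfold avg deg
  rw [← Finset.sum_sub_distrib]
  exact Finset.sum_congr rfl fun w _ => by ring

lemma cost_second {x : V → ℝ} (hx : ∀ v, x v = 0 ∨ x v = 1) :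
    (mu (G.induce {v | x v = 1}ᶜ) : ℝ) = FY G x := by
  rw [mu_induce G (x := fun v => 1 - x v)]
  · unfold FY
    refine Finset.sum_congr rfl fun v _ => ?_
    rw [vr_zero_one G hx v, add_zero, avg_one_sub]
  · intro v
    rcases hx v with h | h
    · left; simp [h]
    · right; simp [h]

/-- `f_μ(G)` is at most the value of the relaxation at any point of the cube. -/
lemma fMu_le (q : V → ℝ) (hq : ∀ v, 0 ≤ q v ∧ q v ≤ 1) : (fMu G : ℝ) ≤ FX G q + FY G q := by
  obtain ⟨x, hx, hle⟩ := rounding (fun q => FX G q + FY G q) (fun q u t => by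
    rw [FX_update, FY_update]; ring) q hq
  refine le_trans ?_ hle
  rw [← cost_first G hx, ← cost_second G hx]
  have : fMu G ≤ mu (G.induce {v | x v = 1}) + mu (G.induce {v | x v = 1}ᶜ) :=
    Nat.sInf_le ⟨_, rfl⟩
  exact_mod_cast this

/-- The sum of the degrees is twice the number of edges. -/
lemma sum_deg : ∑ v, deg G v = 2 * (G.edgeSet.ncard : ℝ) := by
  classical
  have h1 := G.sum_degrees_eq_twice_card_edges
  have h2 : ∀ v, deg G v = (G.degree v : ℝ) := by
    intro v
    unfold deg adj
    rw [Finset.sum_ite, Finset.sum_const_zero, add_zero, Finset.sum_const, nsmul_eq_mul, mul_one]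
    congr 1
    rw [← SimpleGraph.card_neighborFinset_eq_degree]
    congr 1
    ext w
    simp
  rw [Finset.sum_congr rfl (fun v _ => h2 v), ← Nat.cast_sum, h1]
  push_cast
  congr 2
  rw [Set.ncard_eq_toFinset_card', SimpleGraph.edgeFinset]

end Relax

end Pool.Agent.Helper39.Mu
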