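import Mathlib
import Pool.Agent.Helper39.Mu.Relax

/-!
# The lower bound: graphs containing a large clique
-/

namespace Pool.Agent.Helper39.Mu

open Finset

set_option linter.unusedSectionVars false

section Graph

variable {V : Type*} [Fintype V] [DecidableEq V] (G : SimpleGraph V)

/-- If `K` is a clique and `a = |K ∩ U|` then `μ(G[U]) ≥ a (a - 1)²`. -/
lemma mu_induce_ge (K : Finset V) (hK : ∀ v ∈ K, ∀ w ∈ K, v ≠ w → G.Adj v w) (U : Set V) :
    ((((K : Set V) ∩ U).ncard : ℕ) : ℝ) * (((((K : Set V) ∩ U).ncard : ℕ) : ℝ) - 1) ^ 2 ≤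
      (mu (G.induce U) : ℝ) := by
  classical
  obtain ⟨x, hx⟩ : ∃ x : V → ℝ, x = fun v => if v ∈ U then 1 else 0 := ⟨_, rfl⟩
  have hxU : ∀ v, (v ∈ U ∧ x v = 1) ∨ (v ∉ U ∧ x v = 0) := by
    intro v
    by_cases h : v ∈ U
    · left; exact ⟨h, by rw [hx]; simp [h]⟩
    · right; exact ⟨h, by rw [hx]; simp [h]⟩
  have hx0 : ∀ v, 0 ≤ x v := fun v => by
    rcases hxU v with ⟨_, h⟩ | ⟨_, h⟩ <;> rw [h]
    norm_num
  rw [mu_induce G hxU]
  obtain ⟨A, hA⟩ : ∃ A, A = K.filter (fun v => v ∈ U) := ⟨_, rfl⟩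
  have hKA : ((K : Set V) ∩ U).ncard = A.card := by
    rw [← Set.ncard_coe_finset]
    congr 1
    ext v
    simp [hA]
  rw [hKA]
  have h1 : ∀ v ∈ A, (A.card : ℝ) - 1 ≤ avg G x v := by
    intro v hv
    have h2 : ∑ w ∈ A.erase v, (1 : ℝ) ≤ avg G x v := by
      unfold avg
      calc ∑ w ∈ A.erase v, (1 : ℝ) = ∑ w ∈ A.erase v, adj G v w * x w := by
            refine Finset.sum_congr rfl fun w hw => ?_
            rw [hA, Finset.mem_filter] at hv
            rw [hA, Finset.mem_erase, Finset.mem_filter] at hw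
            rw [adj_of_adj G (hK v hv.1 w hw.2.1 hw.1.symm), hx]
            simp [hw.2.2]
        _ ≤ ∑ w, adj G v w * x w :=
            Finset.sum_le_sum_of_subset_of_nonneg (Finset.subset_univ _)
              fun w _ _ => mul_nonneg (adj_nonneg G v w) (hx0 w)
    rw [Finset.sum_const, Finset.card_erase_of_mem hv, nsmul_eq_mul, mul_one] at h2
    have h3 : 1 ≤ A.card := Finset.card_pos.mpr ⟨v, hv⟩
    rw [Nat.cast_sub h3] at h2
    simpa using h2
  calc (A.card : ℝ) * ((A.card : ℝ) - 1) ^ 2 = ∑ v ∈ A, ((A.card : ℝ) - 1) ^ 2 := by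
        rw [Finset.sum_const, nsmul_eq_mul]
    _ ≤ ∑ v ∈ A, x v * avg G x v ^ 2 := by
        refine Finset.sum_le_sum fun v hv => ?_
        have h3 : (1 : ℝ) ≤ A.card := by exact_mod_cast Finset.card_pos.mpr ⟨v, hv⟩
        have h4 := h1 v hv
        have h5 : x v = 1 := by
          rw [hA, Finset.mem_filter] at hv
          rw [hx]; simp [hv.2]
        rw [h5, one_mul]
        exact pow_le_pow_left₀ (by linarith) h4 2
    _ ≤ ∑ v, x v * avg G x v ^ 2 :=
        Finset.sum_le_sum_of_subset_of_nonneg (Finset.subset_univ _)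
          fun v _ _ => mul_nonneg (hx0 v) (sq_nonneg _)

/-- A graph containing a clique on `n ≥ 2` vertices: every bipartition has total cost at least
`n (n - 2)² / 4`. -/
lemma cost_ge (K : Finset V) (hK : ∀ v ∈ K, ∀ w ∈ K, v ≠ w → G.Adj v w) (hn : 2 ≤ K.card)
    (U : Set V) : (K.card : ℝ) * ((K.card : ℝ) - 2) ^ 2 / 4 ≤
      (mu (G.induce U) : ℝ) + (mu (G.induce Uᶜ) : ℝ) := by
  classical
  have h1 := mu_induce_ge G K hK U
  have h2 := mu_induce_ge G K hK Uᶜ
  have h3 : ((K : Set V) ∩ U).ncard + ((K : Set V) ∩ Uᶜ).ncard = K.card := by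
    have := Set.ncard_inter_add_ncard_sdiff_eq_ncard (K : Set V) U (Set.toFinite _)
    rw [Set.sdiff_eq, Set.ncard_coe_finset] at this
    exact this
  obtain ⟨a, ha⟩ : ∃ a : ℝ, a = (((K : Set V) ∩ U).ncard : ℕ) := ⟨_, rfl⟩
  obtain ⟨b, hb⟩ : ∃ b : ℝ, b = (((K : Set V) ∩ Uᶜ).ncard : ℕ) := ⟨_, rfl⟩
  have h4 : a + b = K.card := by rw [ha, hb]; exact_mod_cast h3
  have hn' : (2 : ℝ) ≤ K.card := by exact_mod_cast hn
  rw [← h4] at hn' ⊢
  rw [← ha] at h1
  rw [← hb] at h2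
  have h5 : a * (a - 1) ^ 2 + b * (b - 1) ^ 2 - (a + b) * ((a + b) - 2) ^ 2 / 4 =
      (3 * (a + b) - 4) * (a - b) ^ 2 / 4 := by ring
  have h6 : 0 ≤ (3 * (a + b) - 4) * (a - b) ^ 2 / 4 :=
    div_nonneg (mul_nonneg (by linarith) (sq_nonneg _)) (by norm_num)
  linarith

lemma fMu_ge (K : Finset V) (hK : ∀ v ∈ K, ∀ w ∈ K, v ≠ w → G.Adj v w) (hn : 2 ≤ K.card) :
    (K.card : ℝ) * ((K.card : ℝ) - 2) ^ 2 / 4 ≤ (fMu G : ℝ) := by
  have hne : {x | ∃ U : Set V, x = mu (G.induce U) + mu (G.induce Uᶜ)}.Nonempty := ⟨_, ∅, rfl⟩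
  obtain ⟨U, hU⟩ := Nat.sInf_mem hne
  have : fMu G = mu (G.induce U) + mu (G.induce Uᶜ) := hU
  rw [this]
  push_cast
  exact cost_ge G K hK hn U

lemma gMu_ge (K : Finset V) (hK : ∀ v ∈ K, ∀ w ∈ K, v ≠ w → G.Adj v w) (hn : 2 ≤ K.card) :
    (K.card : ℝ) * ((K.card : ℝ) - 2) ^ 2 / 8 ≤ (gMu G : ℝ) := by
  have hne : {x | ∃ U : Set V, x = max (mu (G.induce U)) (mu (G.induce Uᶜ))}.Nonempty :=
    ⟨_, ∅, rfl⟩
  obtain ⟨U, hU⟩ := Nat.sInf_mem hne
  have h1 : gMu G = max (mu (G.induce U)) (mu (G.induce Uᶜ)) := hU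
  have h2 := cost_ge G K hK hn U
  have h3 : (mu (G.induce U) : ℝ) ≤ gMu G := by rw [h1]; exact_mod_cast le_max_left _ _
  have h4 : (mu (G.induce Uᶜ) : ℝ) ≤ gMu G := by rw [h1]; exact_mod_cast le_max_right _ _
  linarith

end Graph

/-- For `n (n - 1) ≤ 2 m` there is a graph with `m` edges which contains a clique on `n`
vertices. -/
lemma exists_graph (m n : ℕ) (h : n.choose 2 ≤ m) :
    ∃ (M : ℕ) (G : SimpleGraph (Fin M)) (K : Finset (Fin M)), G.edgeSet.ncard = m ∧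
      K.card = n ∧ ∀ v ∈ K, ∀ w ∈ K, v ≠ w → G.Adj v w := by
  classical
  obtain ⟨M, hM⟩ : ∃ M, M = n + m + 1 := ⟨_, rfl⟩
  let f : Fin n ↪ Fin M := ⟨Fin.castLE (by omega), Fin.castLE_injective _⟩
  let s : Finset (Sym2 (Fin M)) := (⊤ : SimpleGraph (Fin n)).edgeFinset.map f.sym2Map
  let t : Finset (Sym2 (Fin M)) := (⊤ : SimpleGraph (Fin M)).edgeFinset
  have hmem : ∀ a b : Fin n, a ≠ b → s(f a, f b) ∈ s := by
    intro a b hab
    rw [Finset.mem_map]
    exact ⟨s(a, b), by simpa using hab, rfl⟩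
  have hst : s ⊆ t := by
    intro e he
    rw [Finset.mem_map] at he
    obtain ⟨e', he', rfl⟩ := he
    induction e' using Sym2.ind with
    | _ a b =>
      have hab : a ≠ b := by simpa using he'
      have : f.sym2Map s(a, b) = s(f a, f b) := rfl
      rw [this]
      simp only [t, SimpleGraph.mem_edgeFinset, SimpleGraph.mem_edgeSet, SimpleGraph.top_adj]
      exact fun h => hab (f.injective h)
  have hs : s.card ≤ m := by
    have : s.card = n.choose 2 := by
      simp only [s]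
      rw [Finset.card_map, SimpleGraph.card_edgeFinset_top_eq_card_choose_two,
        Fintype.card_fin]
    omega
  have ht : m ≤ t.card := by
    have h1 : t.card = M.choose 2 := by
      simp only [t]
      rw [SimpleGraph.card_edgeFinset_top_eq_card_choose_two, Fintype.card_fin]
    have h2 : M = (n + m) + 1 := hM
    rw [h1, h2, Nat.choose_succ_succ' (n + m) 1, Nat.choose_one_right]
    omega
  obtain ⟨u, hsu, hut, hu⟩ := Finset.exists_subsuperset_card_eq hst hs ht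
  have hdiag : ∀ e ∈ u, ¬ e.IsDiag := by
    intro e he
    have := hut he
    simp only [t, SimpleGraph.mem_edgeFinset] at this
    exact SimpleGraph.not_isDiag_of_mem_edgeSet _ this
  have hG : (SimpleGraph.fromEdgeSet (u : Set (Sym2 (Fin M)))).edgeSet = (u : Set _) := by
    rw [SimpleGraph.edgeSet_fromEdgeSet]
    ext e
    simp only [Set.mem_sdiff, Finset.mem_coe]
    constructor
    · intro h; exact h.1
    · intro h; exact ⟨h, hdiag e h⟩
  refine ⟨M, SimpleGraph.fromEdgeSet (u : Set (Sym2 (Fin M))), Finset.univ.map f, ?_, ?_, ?_⟩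
  · rw [hG, Set.ncard_coe_finset, hu]
  · rw [Finset.card_map, Finset.card_univ, Fintype.card_fin]
  · intro v hv w hw hvw
    rw [Finset.mem_map] at hv hw
    obtain ⟨a, _, rfl⟩ := hv
    obtain ⟨b, _, rfl⟩ := hw
    rw [SimpleGraph.fromEdgeSet_adj]
    refine ⟨?_, hvw⟩
    exact hsu (hmem a b (fun h => hvw (by rw [h])))

lemma exists_n (m : ℕ) : ∃ n : ℕ, n * (n - 1) ≤ 2 * m ∧ 2 * m < (n + 1) * n := by
  induction m with
  | zero => exact ⟨1, by simp⟩
  | succ m ih =>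
    obtain ⟨n, h1, h2⟩ := ih
    by_cases h : 2 * (m + 1) < (n + 1) * n
    · exact ⟨n, by omega, h⟩
    · refine ⟨n + 1, ?_, ?_⟩
      · simp only [Nat.add_sub_cancel]
        omega
      · have : (n + 1 + 1) * (n + 1) = (n + 1) * n + 2 * (n + 1) := by ring
        omega

end Pool.Agent.Helper39.Mu
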