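import Mathlib
import Pool.Agent.Helper39.Mu.Relax

/-!
# The upper bound for the sum version
-/

namespace Pool.Agent.Helper39.Mu

open Finset

set_option linter.unusedSectionVars false

/-- Constant coefficient of the linear function used at a vertex of normalized degree `x`. -/
noncomputable def al (x π : ℝ) : ℝ := if x < 1 then (1 - x / 2) * x - π ^ 2 / x else 1 / 2

/-- Slope of the linear function used at a vertex of normalized degree `x`. -/
noncomputable def be (x π : ℝ) : ℝ :=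
  if x < 1 then 2 * (1 - x / 2) * x - 2 * π else 1 / 2 + (2 * min 1 (x / 2) - 1) ^ 3

lemma vertex_bound {x π : ℝ} (hx : 0 < x) (h0 : 0 ≤ π) (h1 : π ≤ 1 / 2) :
    min 1 (x / 2) * π ^ 2 + (1 - min 1 (x / 2)) * (x - π) ^ 2 ≤ al x π * x - be x π * π := by
  unfold al be
  split_ifs with h
  · rw [min_eq_right (by linarith)]
    have : π ^ 2 / x * x = π ^ 2 := div_mul_cancel₀ _ hx.ne'
    have h2 : ((1 - x / 2) * x - π ^ 2 / x) * x = (1 - x / 2) * x * x - π ^ 2 := by
      rw [sub_mul, this]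
    rw [h2]
    apply le_of_eq
    ring
  · push Not at h
    rcases le_or_gt x 2 with h2 | h2
    · rw [min_eq_right (by linarith)]
      have h3 : 1 / 2 * x - (1 / 2 + (2 * (x / 2) - 1) ^ 3) * π -
          (x / 2 * π ^ 2 + (1 - x / 2) * (x - π) ^ 2) =
          (1 - 2 * π) * (x * (x - 1) ^ 2 / 2) + π * (1 / 2 - π) := by ring
      have h4 : 0 ≤ (1 - 2 * π) * (x * (x - 1) ^ 2 / 2) :=
        mul_nonneg (by linarith) (by positivity)
      have h5 : 0 ≤ π * (1 / 2 - π) := mul_nonneg h0 (by linarith)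
      linarith
    · rw [min_eq_left (by linarith)]
      nlinarith

lemma pair_small {x y π ρ : ℝ} (hx : 0 < x) (hy : 0 < y) (hx1 : x < 1) (hy1 : y < 1) :
    al x π - be x π * min 1 (y / 2) + (al y ρ - be y ρ * min 1 (x / 2)) ≤ 1 / 2 := by
  unfold al be
  rw [if_pos hx1, if_pos hx1, if_pos hy1, if_pos hy1, min_eq_right (by linarith),
    min_eq_right (by linarith)]
  have e1 : π * y - π ^ 2 / x ≤ x * y ^ 2 / 4 := by
    have : x * y ^ 2 / 4 - (π * y - π ^ 2 / x) = (π - x * y / 2) ^ 2 / x := by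
      field_simp
      ring
    have h2 : 0 ≤ (π - x * y / 2) ^ 2 / x := by positivity
    linarith
  have e2 : ρ * x - ρ ^ 2 / y ≤ y * x ^ 2 / 4 := by
    have : y * x ^ 2 / 4 - (ρ * x - ρ ^ 2 / y) = (ρ - y * x / 2) ^ 2 / y := by
      field_simp
      ring
    have h2 : 0 ≤ (ρ - y * x / 2) ^ 2 / y := by positivity
    linarith
  have key : (1 - x / 2) * x * (1 - y) + x * y ^ 2 / 4 + ((1 - y / 2) * y * (1 - x) +
      y * x ^ 2 / 4) ≤ 1 / 2 := by
    have hq : 0 < x * y := mul_pos hx hy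
    rcases le_or_gt (x + y) (4 / 3) with hs | hs
    · have : 1 / 2 - ((1 - x / 2) * x * (1 - y) + x * y ^ 2 / 4 + ((1 - y / 2) * y * (1 - x) +
          y * x ^ 2 / 4)) = (1 - (x + y)) ^ 2 / 2 + x * y * (1 - 3 / 4 * (x + y)) := by ring
      have h3 : 0 ≤ x * y * (1 - 3 / 4 * (x + y)) := mul_nonneg hq.le (by linarith)
      have h4 : 0 ≤ (1 - (x + y)) ^ 2 / 2 := by positivity
      linarith
    · have h3 : x * y ≤ (x + y) ^ 2 / 4 := by nlinarith [sq_nonneg (x - y)]
      have h4 : x * y * (3 / 4 * (x + y) - 1) ≤ (x + y) ^ 2 / 4 * (3 / 4 * (x + y) - 1) :=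
        mul_le_mul_of_nonneg_right h3 (by linarith)
      have h5 : 1 / 2 - ((1 - x / 2) * x * (1 - y) + x * y ^ 2 / 4 + ((1 - y / 2) * y * (1 - x) +
          y * x ^ 2 / 4)) = (1 - (x + y)) ^ 2 / 2 - x * y * (3 / 4 * (x + y) - 1) := by ring
      have h6 : (1 - (x + y)) ^ 2 / 2 - (x + y) ^ 2 / 4 * (3 / 4 * (x + y) - 1) =
          1 / 16 * ((2 - (x + y)) * (3 * ((x + y) - 1) ^ 2 + 1)) := by ring
      have h7 : 0 ≤ (2 - (x + y)) * (3 * ((x + y) - 1) ^ 2 + 1) :=
        mul_nonneg (by linarith) (by positivity)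
      linarith
  have e3 : (1 - x / 2) * x - π ^ 2 / x - (2 * (1 - x / 2) * x - 2 * π) * (y / 2) =
      (1 - x / 2) * x * (1 - y) + (π * y - π ^ 2 / x) := by ring
  have e4 : (1 - y / 2) * y - ρ ^ 2 / y - (2 * (1 - y / 2) * y - 2 * ρ) * (x / 2) =
      (1 - y / 2) * y * (1 - x) + (ρ * x - ρ ^ 2 / y) := by ring
  rw [e3, e4]
  linarith

lemma pair_mixed {x y π ρ : ℝ} (hx : 0 < x) (hx1 : x < 1) (hy1 : 1 ≤ y)
    (h1 : π ≤ 1 / 2) :
    al x π - be x π * min 1 (y / 2) + (al y ρ - be y ρ * min 1 (x / 2)) ≤ 1 / 2 := by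
  unfold al be
  rw [if_pos hx1, if_pos hx1, if_neg (not_lt.mpr hy1), if_neg (not_lt.mpr hy1),
    min_eq_right (show x / 2 ≤ 1 by linarith)]
  obtain ⟨b, hb⟩ : ∃ b, b = 2 * min 1 (y / 2) - 1 := ⟨_, rfl⟩
  have hp : min 1 (y / 2) = (1 + b) / 2 := by rw [hb]; ring
  have hb0 : 0 ≤ b := by
    have : 1 / 2 ≤ min 1 (y / 2) := le_min (by norm_num) (by linarith)
    linarith
  have hb1 : b ≤ 1 := by
    have : min 1 (y / 2) ≤ 1 := min_le_left _ _
    linarith
  rw [← hb, hp]
  have e1 : (1 - x / 2) * x - π ^ 2 / x - (2 * (1 - x / 2) * x - 2 * π) * ((1 + b) / 2) +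
      (1 / 2 - (1 / 2 + b ^ 3) * (x / 2)) = -(1 - x / 2) * x * b + (π * (1 + b) - π ^ 2 / x) +
      1 / 2 - x / 4 - b ^ 3 * x / 2 := by ring
  rw [e1]
  rcases le_or_gt (x * (1 + b)) 1 with hc | hc
  · have e2 : π * (1 + b) - π ^ 2 / x ≤ x * (1 + b) ^ 2 / 4 := by
      have : x * (1 + b) ^ 2 / 4 - (π * (1 + b) - π ^ 2 / x) =
          (π - x * (1 + b) / 2) ^ 2 / x := by
        field_simp
        ring
      have h2 : 0 ≤ (π - x * (1 + b) / 2) ^ 2 / x := by positivity
      linarith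
    have e3 : x ≤ 1 - b / 2 := by
      by_contra hcon
      push Not at hcon
      have : (1 - b / 2) * (1 + b) < x * (1 + b) := mul_lt_mul_of_pos_right hcon (by linarith)
      nlinarith
    have e4 : 0 ≤ x * b * (1 / 2 - x / 2 - b / 4 + b ^ 2 / 2) := by
      apply mul_nonneg (mul_nonneg hx.le hb0)
      nlinarith [sq_nonneg b]
    nlinarith
  · have hx2 : 1 / 2 < x := by nlinarith
    have e2 : π * (1 + b) - π ^ 2 / x ≤ (1 + b) / 2 - 1 / (4 * x) := by
      have : (1 + b) / 2 - 1 / (4 * x) - (π * (1 + b) - π ^ 2 / x) =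
          (1 / 2 - π) * ((x * (1 + b) - (1 / 2 + π)) / x) := by
        field_simp
        ring
      have h2 : 0 ≤ (1 / 2 - π) * ((x * (1 + b) - (1 / 2 + π)) / x) :=
        mul_nonneg (by linarith) (div_nonneg (by linarith) hx.le)
      linarith
    have e3 : (1 - x) ^ 2 * (2 * x * b - 1) ≤ 2 * b ^ 3 * x ^ 2 := by
      rcases le_or_gt (2 * x * b) 1 with h3 | h3
      · have : (1 - x) ^ 2 * (2 * x * b - 1) ≤ 0 :=
          mul_nonpos_of_nonneg_of_nonpos (sq_nonneg _) (by linarith)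
        have : 0 ≤ 2 * b ^ 3 * x ^ 2 := by positivity
        linarith
      · have h4 : (1 - x) ^ 2 ≤ 1 / 4 := by nlinarith
        have h5 : (1 - x) ^ 2 * (2 * x * b - 1) ≤ 1 / 4 * (2 * x * b - 1) :=
          mul_le_mul_of_nonneg_right h4 (by linarith)
        have h6 : x * b ≤ b := by nlinarith
        have h7 : 1 / 4 ≤ (b * x) ^ 2 := by nlinarith
        have h8 : 2 * b * (1 / 4) ≤ 2 * b * (b * x) ^ 2 :=
          mul_le_mul_of_nonneg_left h7 (by linarith)
        nlinarith
    have e4 : (1 + b) / 2 - 1 / (4 * x) - (1 - x / 2) * x * b - x / 4 - b ^ 3 * x / 2 =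
        ((1 - x) ^ 2 * (2 * x * b - 1) - 2 * b ^ 3 * x ^ 2) / (4 * x) := by
      field_simp
      ring
    have e5 : ((1 - x) ^ 2 * (2 * x * b - 1) - 2 * b ^ 3 * x ^ 2) / (4 * x) ≤ 0 :=
      div_nonpos_of_nonpos_of_nonneg (by linarith) (by linarith)
    linarith

lemma pair_large {x y π ρ : ℝ} (hx1 : 1 ≤ x) (hy1 : 1 ≤ y) :
    al x π - be x π * min 1 (y / 2) + (al y ρ - be y ρ * min 1 (x / 2)) ≤ 1 / 2 := by
  unfold al be
  rw [if_neg (not_lt.mpr hx1), if_neg (not_lt.mpr hx1), if_neg (not_lt.mpr hy1),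
    if_neg (not_lt.mpr hy1)]
  have hp : 1 / 2 ≤ min 1 (x / 2) := le_min (by norm_num) (by linarith)
  have hq : 1 / 2 ≤ min 1 (y / 2) := le_min (by norm_num) (by linarith)
  have hp3 : 0 ≤ (2 * min 1 (x / 2) - 1) ^ 3 := pow_nonneg (by linarith) 3
  have hq3 : 0 ≤ (2 * min 1 (y / 2) - 1) ^ 3 := pow_nonneg (by linarith) 3
  have h1 : 0 ≤ (2 * min 1 (x / 2) - 1) ^ 3 * min 1 (y / 2) := mul_nonneg hp3 (by linarith)
  have h2 : 0 ≤ (2 * min 1 (y / 2) - 1) ^ 3 * min 1 (x / 2) := mul_nonneg hq3 (by linarith)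
  linarith

lemma pair_bound {x y π ρ : ℝ} (hx : 0 < x) (hy : 0 < y) (h1 : π ≤ 1 / 2) (h2 : ρ ≤ 1 / 2) :
    al x π - be x π * min 1 (y / 2) + (al y ρ - be y ρ * min 1 (x / 2)) ≤ 1 / 2 := by
  rcases lt_or_ge x 1 with hx1 | hx1
  · rcases lt_or_ge y 1 with hy1 | hy1
    · exact pair_small hx hy hx1 hy1
    · exact pair_mixed hx hx1 hy1 h1
  · rcases lt_or_ge y 1 with hy1 | hy1
    · have := pair_mixed (ρ := π) hy hy1 hx1 h2
      linarith
    · exact pair_large hx1 hy1

section Graph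

variable {V : Type*} [Fintype V] [DecidableEq V] (G : SimpleGraph V)

lemma deg_nonneg (v : V) : 0 ≤ deg G v := Finset.sum_nonneg fun w _ => adj_nonneg G v w

/-- The biased probabilities `min (1, d(v) / (2N))`. -/
noncomputable def prob (N : ℝ) (v : V) : ℝ := min 1 (deg G v / N / 2)

lemma prob_mem {N : ℝ} (hN : 0 < N) (v : V) : 0 ≤ prob G N v ∧ prob G N v ≤ 1 :=
  ⟨le_min zero_le_one (div_nonneg (div_nonneg (deg_nonneg G v) hN.le) zero_le_two),
    min_le_left _ _⟩

lemma avg_nonneg {q : V → ℝ} (hq : ∀ v, 0 ≤ q v) (v : V) : 0 ≤ avg G q v :=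
  Finset.sum_nonneg fun w _ => mul_nonneg (adj_nonneg G v w) (hq w)

lemma adj_le_one (v w : V) : adj G v w ≤ 1 := by
  rcases adj_zero_or_one G v w with h | h <;> rw [h]; norm_num

lemma avg_le {N : ℝ} (hN : 0 < N) (hsum : ∑ v, deg G v = N ^ 2) (v : V) :
    avg G (prob G N) v ≤ N / 2 := by
  unfold avg
  calc ∑ w, adj G v w * prob G N w ≤ ∑ w, deg G w / N / 2 := by
        refine Finset.sum_le_sum fun w _ => ?_
        calc adj G v w * prob G N w ≤ 1 * prob G N w :=
              mul_le_mul_of_nonneg_right (adj_le_one G v w) (prob_mem G hN w).1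
          _ ≤ deg G w / N / 2 := by rw [one_mul]; exact min_le_right _ _
    _ = N / 2 := by
        rw [← Finset.sum_div, ← Finset.sum_div, hsum]
        field_simp

lemma main_sum {N : ℝ} (hN : 0 < N) (hsum : ∑ v, deg G v = N ^ 2) :
    ∑ v, (prob G N v * avg G (prob G N) v ^ 2 +
      (1 - prob G N v) * (deg G v - avg G (prob G N) v) ^ 2) ≤ N ^ 3 / 4 := by
  obtain ⟨x, hx⟩ : ∃ x : V → ℝ, x = fun v => deg G v / N := ⟨_, rfl⟩
  obtain ⟨r, hr⟩ : ∃ r : V → ℝ, r = fun v => avg G (prob G N) v / N := ⟨_, rfl⟩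
  have hp : ∀ v, prob G N v = min 1 (x v / 2) := fun v => by rw [hx]; rfl
  have hdeg : ∀ v, deg G v = N * x v := fun v => by rw [hx]; field_simp
  have havg : ∀ v, avg G (prob G N) v = N * r v := fun v => by rw [hr]; field_simp
  have hr0 : ∀ v, 0 ≤ r v := fun v => by
    rw [hr]; exact div_nonneg (avg_nonneg G (fun w => (prob_mem G hN w).1) v) hN.le
  have hr1 : ∀ v, r v ≤ 1 / 2 := fun v => by
    rw [hr]
    have := avg_le G hN hsum v
    rw [div_le_iff₀ hN]
    linarith
  have hx0 : ∀ v, 0 ≤ x v := fun v => by rw [hx]; exact div_nonneg (deg_nonneg G v) hN.le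
  have step1 : ∀ v, prob G N v * avg G (prob G N) v ^ 2 +
      (1 - prob G N v) * (deg G v - avg G (prob G N) v) ^ 2 ≤
      N * ∑ w, adj G v w * (al (x v) (r v) - be (x v) (r v) * prob G N w) := by
    intro v
    have e1 : ∑ w, adj G v w * (al (x v) (r v) - be (x v) (r v) * prob G N w) =
        al (x v) (r v) * deg G v - be (x v) (r v) * avg G (prob G N) v := by
      unfold deg avg
      rw [Finset.mul_sum, Finset.mul_sum, ← Finset.sum_sub_distrib]
      exact Finset.sum_congr rfl fun w _ => by ring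
    rw [e1, hdeg v, havg v, hp v]
    rcases (hx0 v).eq_or_lt with h0 | h0
    · have h1 : deg G v = 0 := by rw [hdeg v, ← h0, mul_zero]
      have h2 : ∀ w, adj G v w = 0 := by
        intro w
        have := (Finset.sum_eq_zero_iff_of_nonneg (fun w _ => adj_nonneg G v w)).mp h1
        exact this w (Finset.mem_univ _)
      have h3 : avg G (prob G N) v = 0 := Finset.sum_eq_zero fun w _ => by rw [h2 w, zero_mul]
      have h4 : r v = 0 := by
        have := havg v
        rw [h3] at this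
        rcases mul_eq_zero.mp this.symm with h | h
        · exact absurd h hN.ne'
        · exact h
      rw [← h0, h4]
      simp
    · have := vertex_bound h0 (hr0 v) (hr1 v)
      have h5 : 0 ≤ N ^ 2 := sq_nonneg N
      nlinarith [mul_le_mul_of_nonneg_left this h5]
  have step2 : ∑ v, ∑ w, adj G v w * (al (x v) (r v) - be (x v) (r v) * prob G N w) ≤
      N ^ 2 / 4 := by
    have e1 : ∑ v, ∑ w, adj G v w * (al (x v) (r v) - be (x v) (r v) * prob G N w) =
        ∑ v, ∑ w, adj G v w * (al (x w) (r w) - be (x w) (r w) * prob G N v) := by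
      rw [Finset.sum_comm]
      refine Finset.sum_congr rfl fun v _ => Finset.sum_congr rfl fun w _ => ?_
      rw [adj_comm]
    have e2 : 2 * ∑ v, ∑ w, adj G v w * (al (x v) (r v) - be (x v) (r v) * prob G N w) =
        ∑ v, ∑ w, adj G v w * ((al (x v) (r v) - be (x v) (r v) * prob G N w) +
          (al (x w) (r w) - be (x w) (r w) * prob G N v)) := by
      rw [two_mul]
      nth_rewrite 2 [e1]
      rw [← Finset.sum_add_distrib]
      refine Finset.sum_congr rfl fun v _ => ?_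
      rw [← Finset.sum_add_distrib]
      exact Finset.sum_congr rfl fun w _ => by ring
    have e3 : ∑ v, ∑ w, adj G v w * ((al (x v) (r v) - be (x v) (r v) * prob G N w) +
          (al (x w) (r w) - be (x w) (r w) * prob G N v)) ≤ ∑ v, ∑ w, adj G v w * (1 / 2) := by
      refine Finset.sum_le_sum fun v _ => Finset.sum_le_sum fun w _ => ?_
      rcases adj_zero_or_one G v w with h | h
      · rw [h]; simp
      · rw [h, one_mul, one_mul]
        have hv : 0 < x v := by
          rw [hx]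
          have : 0 < deg G v := by
            have h1 : adj G v w ≤ deg G v :=
              Finset.single_le_sum (fun w _ => adj_nonneg G v w) (Finset.mem_univ w)
            linarith
          exact div_pos this hN
        have hw : 0 < x w := by
          rw [hx]
          have : 0 < deg G w := by
            have h1 : adj G w v ≤ deg G w :=
              Finset.single_le_sum (fun w' _ => adj_nonneg G w w') (Finset.mem_univ v)
            rw [adj_comm] at h
            linarith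
          exact div_pos this hN
        rw [hp v, hp w]
        exact pair_bound hv hw (hr1 v) (hr1 w)
    have e4 : ∑ v, ∑ w, adj G v w * (1 / 2) = N ^ 2 / 2 := by
      have : ∀ v, ∑ w, adj G v w * (1 / 2) = deg G v / 2 := by
        intro v
        rw [← Finset.sum_mul]
        unfold deg
        ring
      rw [Finset.sum_congr rfl (fun v _ => this v), ← Finset.sum_div, hsum]
    linarith
  calc _ ≤ ∑ v, N * ∑ w, adj G v w * (al (x v) (r v) - be (x v) (r v) * prob G N w) :=
        Finset.sum_le_sum fun v _ => step1 v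
    _ = N * ∑ v, ∑ w, adj G v w * (al (x v) (r v) - be (x v) (r v) * prob G N w) := by
        rw [Finset.mul_sum]
    _ ≤ N * (N ^ 2 / 4) := mul_le_mul_of_nonneg_left step2 hN.le
    _ = N ^ 3 / 4 := by ring

lemma sum_vr_le (q : V → ℝ) : ∑ v, vr G q v ≤ (∑ v, deg G v) / 4 := by
  rw [Finset.sum_div]
  refine Finset.sum_le_sum fun v _ => ?_
  unfold vr deg
  rw [Finset.sum_div]
  refine Finset.sum_le_sum fun w _ => ?_
  have : q w * (1 - q w) ≤ 1 / 4 := by nlinarith [sq_nonneg (q w - 1 / 2)]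
  nlinarith [adj_nonneg G v w]

/-- For a graph with `m` edges, `f_μ(G) ≤ N³/4 + N²/4` with `N = √(2m)`. -/
lemma fMu_upper {N : ℝ} (hN : 0 < N) (hsum : ∑ v, deg G v = N ^ 2) :
    (fMu G : ℝ) ≤ N ^ 3 / 4 + N ^ 2 / 4 := by
  refine (fMu_le G (prob G N) (prob_mem G hN)).trans ?_
  have h1 := main_sum G hN hsum
  have h2 := sum_vr_le G (prob G N)
  rw [hsum] at h2
  have h3 : FX G (prob G N) + FY G (prob G N) =
      ∑ v, (prob G N v * avg G (prob G N) v ^ 2 +
      (1 - prob G N v) * (deg G v - avg G (prob G N) v) ^ 2) + ∑ v, vr G (prob G N) v := by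
    unfold FX FY
    rw [← Finset.sum_add_distrib, ← Finset.sum_add_distrib]
    exact Finset.sum_congr rfl fun v _ => by ring
  linarith

end Graph

end Pool.Agent.Helper39.Mu
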