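import Mathlib
import Pool.Agent.Helper39.Mu.Defs
import Pool.Agent.Helper39.Mu.Upper
import Pool.Agent.Helper39.Mu.Lower

/-!
# `f_μ(m) = m^{3/2} / √2 + O(m)`
-/

namespace Pool.Agent.Helper39.Mu.SumAsymptotics

open Pool.Agent.Helper39.Mu

lemma main_term (m : ℕ) :
    (m : ℝ) ^ (3 / 2 : ℝ) / Real.sqrt 2 = Real.sqrt (2 * m) ^ 3 / 4 := by
  have hm : (0 : ℝ) ≤ m := Nat.cast_nonneg m
  have h1 : (m : ℝ) ^ (3 / 2 : ℝ) = m * Real.sqrt m := by
    rcases hm.eq_or_lt with h | h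
    · rw [← h]; simp
    · rw [Real.sqrt_eq_rpow, show (3 / 2 : ℝ) = 1 + 1 / 2 by norm_num, Real.rpow_add h,
        Real.rpow_one]
  have h2 : Real.sqrt (2 * m) ^ 3 = 2 * m * (Real.sqrt 2 * Real.sqrt m) := by
    rw [pow_succ, Real.sq_sqrt (by positivity), Real.sqrt_mul (by norm_num)]
  have h3 : Real.sqrt 2 ≠ 0 := by positivity
  have h4 : Real.sqrt 2 * Real.sqrt 2 = 2 := Real.mul_self_sqrt (by norm_num)
  rw [h1, h2, div_eq_div_iff h3 (by norm_num)]
  calc m * Real.sqrt m * 4 = 2 * m * Real.sqrt m * 2 := by ring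
    _ = 2 * m * Real.sqrt m * (Real.sqrt 2 * Real.sqrt 2) := by rw [h4]
    _ = 2 * m * (Real.sqrt 2 * Real.sqrt m) * Real.sqrt 2 := by ring

lemma upper_graph (m n : ℕ) (G : SimpleGraph (Fin n)) (hG : G.edgeSet.ncard = m) :
    (fMu G : ℝ) ≤ (m : ℝ) ^ (3 / 2 : ℝ) / Real.sqrt 2 + m / 2 := by
  rw [main_term]
  have hsum := sum_deg G
  rw [hG] at hsum
  rcases Nat.eq_zero_or_pos m with h0 | h0
  · subst h0
    have hz : ∀ v, deg G v = 0 := by
      intro v
      have := (Finset.sum_eq_zero_iff_of_nonneg (fun w _ => deg_nonneg G w)).mp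
        (by simpa using hsum)
      exact this v (Finset.mem_univ v)
    have h1 := fMu_le G (fun _ => 0) (fun _ => by norm_num)
    have h2 : ∀ v, avg G (fun _ => (0 : ℝ)) v = 0 := fun v => by simp [avg]
    have h3 : ∀ v, vr G (fun _ => (0 : ℝ)) v = 0 := fun v => by simp [vr]
    have h4 : FX G (fun _ => 0) + FY G (fun _ => 0) = 0 := by
      unfold FX FY
      simp [h2, h3, hz]
    rw [h4] at h1
    simpa using h1
  · have hN : 0 < Real.sqrt (2 * m) := Real.sqrt_pos.mpr (by positivity)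
    have hN2 : Real.sqrt (2 * m) ^ 2 = 2 * m := Real.sq_sqrt (by positivity)
    have := fMu_upper G hN (by rw [hsum, hN2])
    rw [hN2] at this
    linarith

lemma fMu_bdd (m : ℕ) :
    BddAbove {x | ∃ (n : ℕ) (G : SimpleGraph (Fin n)), G.edgeSet.ncard = m ∧ fMu G = x} := by
  refine ⟨⌊(m : ℝ) ^ (3 / 2 : ℝ) / Real.sqrt 2 + m / 2⌋₊, ?_⟩
  rintro x ⟨n, G, hG, rfl⟩
  exact Nat.le_floor (upper_graph m n G hG)

/-- For every `m` the maximum `f_μ(m)` exists and
`m^{3/2}/√2 - (11/4) m ≤ f_μ(m) ≤ m^{3/2}/√2 + m/2`. -/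
theorem result (m : ℕ) :
    BddAbove {x | ∃ (n : ℕ) (G : SimpleGraph (Fin n)), G.edgeSet.ncard = m ∧ fMu G = x} ∧
    (m : ℝ) ^ (3 / 2 : ℝ) / Real.sqrt 2 - 11 / 4 * m ≤ (fMuMax m : ℝ) ∧
    (fMuMax m : ℝ) ≤ (m : ℝ) ^ (3 / 2 : ℝ) / Real.sqrt 2 + m / 2 := by
  refine ⟨fMu_bdd m, ?_, ?_⟩
  · rw [main_term]
    obtain ⟨N, hN⟩ : ∃ N, N = Real.sqrt (2 * m) := ⟨_, rfl⟩
    have hN0 : 0 ≤ N := by rw [hN]; exact Real.sqrt_nonneg _
    have hN2 : N ^ 2 = 2 * m := by rw [hN]; exact Real.sq_sqrt (by positivity)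
    rw [← hN, show (11 / 4 : ℝ) * m = 11 / 8 * N ^ 2 by rw [hN2]; ring]
    rcases le_or_gt N (11 / 2) with hs | hs
    · have h1 : N ^ 3 / 4 - 11 / 8 * N ^ 2 = N ^ 2 * (N - 11 / 2) / 4 := by ring
      have h2 : N ^ 2 * (N - 11 / 2) ≤ 0 :=
        mul_nonpos_of_nonneg_of_nonpos (sq_nonneg _) (by linarith)
      have h3 : (0 : ℝ) ≤ fMuMax m := Nat.cast_nonneg _
      linarith
    · obtain ⟨n, hn1, hn2⟩ := exists_n m
      have hn1' : (n : ℝ) * (n - 1) ≤ N ^ 2 := by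
        rw [hN2]
        rcases Nat.eq_zero_or_pos n with h | h
        · subst h; simp
        · have : ((n * (n - 1) : ℕ) : ℝ) ≤ ((2 * m : ℕ) : ℝ) := by exact_mod_cast hn1
          rw [Nat.cast_mul, Nat.cast_sub h] at this
          push_cast at this
          exact this
      have hn2' : N ^ 2 < (n + 1) * n := by
        rw [hN2]
        exact_mod_cast hn2
      have hNn : N ≤ n + 1 / 2 := by
        by_contra hcon
        push Not at hcon
        nlinarith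
      have hn5 : (5 : ℝ) ≤ n := by linarith
      have hn5' : 2 ≤ n := by
        have : (2 : ℝ) ≤ n := by linarith
        exact_mod_cast this
      have hch : n.choose 2 ≤ m := by
        rw [Nat.choose_two_right]
        omega
      obtain ⟨M, G, K, hG, hK, hadj⟩ := exists_graph m n hch
      have h1 := fMu_ge G K hadj (by omega)
      rw [hK] at h1
      have h2 : (fMu G : ℝ) ≤ fMuMax m := by
        have : fMu G ≤ fMuMax m := le_csSup (fMu_bdd m) ⟨M, G, hG, rfl⟩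
        exact_mod_cast this
      refine le_trans ?_ (h1.trans h2)
      have h3 : N ^ 3 / 4 - 11 / 8 * N ^ 2 = N ^ 2 * (N - 11 / 2) / 4 := by ring
      have h4 : N ^ 2 * (N - 11 / 2) ≤ ((n : ℝ) + 1 / 2) ^ 2 * (((n : ℝ) + 1 / 2) - 11 / 2) := by
        apply mul_le_mul _ (by linarith) (by linarith) (sq_nonneg _)
        exact pow_le_pow_left₀ hN0 hNn 2
      have h5 : ((n : ℝ) + 1 / 2) ^ 2 * (((n : ℝ) + 1 / 2) - 11 / 2) ≤ n * (n - 2) ^ 2 := by
        nlinarith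
      linarith
  · have hne : {x | ∃ (n : ℕ) (G : SimpleGraph (Fin n)),
        G.edgeSet.ncard = m ∧ fMu G = x}.Nonempty := by
      obtain ⟨M, G, K, hG, _, _⟩ := exists_graph m 0 (by simp)
      exact ⟨_, M, G, hG, rfl⟩
    obtain ⟨n, G, hG, hx⟩ := Nat.sSup_mem hne (fMu_bdd m)
    have h1 : fMuMax m = fMu G := hx.symm
    rw [h1]
    exact upper_graph m n G hG

end Pool.Agent.Helper39.Mu.SumAsymptotics
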